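import Pool.Agent.Helper54.S4.Stmts

/-!
Realizability of simplicial 4-polytopes: module F4.
-/

namespace Pool.Agent.Helper54.S4

open Finset Pool.Agent.Helper54.SP

/-- value at a fourth label -/
def f4_G (t : Bool) (a b c i : ℕ) : Bool :=
  if c < i then l4 t a b c i
  else if b < i then !l4 t a b i c
  else if a < i then l4 t a i b c
  else !l4 t i a b c

theorem f4_val (h2 : ST_AL4) (h5 : ST_GI) (Γ : List Gt) (nw j a b c i : ℕ)
    (hj : j < 4 * Γ.length) (hab : a < b) (hbc : b < c) (hc : c < 6) (hi : i < 6)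
    (ha : i ≠ a) (hb : i ≠ b) (hc' : i ≠ c) :
    ch4 Γ nw [pt j a, pt j b, pt j c, pt j i] = f4_G (tj j) a b c i := by
  obtain ⟨-, e1, e2, e3, e4⟩ := h2 (c4 Γ nw) 0
  have hlt : ∀ {u v : ℕ}, u < v → pt j u < pt j v := by
    intro u v h
    unfold pt
    omega
  unfold f4_G
  split_ifs with k1 k2 k3
  · exact h5 Γ nw j a b c i hj hab hbc k1 hi
  · have k1' : i < c := by omega
    have h := h5 Γ nw j a b i c hj hab k2 k1' hc
    unfold ch4 at h ⊢
    rw [e4 _ _ _ _ (hlt hab) (hlt hbc) (hlt k2) (hlt k1')]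
    rw [e1 _ _ _ _ (hlt hab) (hlt k2) (hlt k1')] at h
    rw [h]
  · have k2' : i < b := by omega
    have h := h5 Γ nw j a i b c hj k3 k2' hbc hc
    unfold ch4 at h ⊢
    rw [e3 _ _ _ _ (hlt hab) (hlt hbc) (hlt k3) (hlt k2')]
    rw [e1 _ _ _ _ (hlt k3) (hlt k2') (hlt hbc)] at h
    rw [h]
  · have k3' : i < a := by omega
    have h := h5 Γ nw j i a b c hj k3' hab hbc hc
    unfold ch4 at h ⊢
    rw [e2 _ _ _ _ (hlt hab) (hlt hbc) (hlt k3')]
    rw [e1 _ _ _ _ (hlt k3') (hlt hab) (hlt hbc)] at h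
    rw [h]

theorem f4_ord : ∀ t : Bool, ∀ T ∈ TT t, T.1 < T.2.1 ∧ T.2.1 < T.2.2 ∧ T.2.2 < 6 := by
  decide

theorem f4_fin : ∀ t : Bool, ∀ T ∈ TT t, ∀ i < 6, i ≠ T.1 → i ≠ T.2.1 → i ≠ T.2.2 →
    f4_G t T.1 T.2.1 T.2.2 i = tb4 t T.1 T.2.1 T.2.2 := by
  decide

theorem st_F4' (h1 : ST_PT4) (h2 : ST_AL4) (h3 : ST_EV5) (h4 : ST_GO4) (h5 : ST_GI)
    (h6 : ST_RB4) : ST_F4' := by
  intro Γ nw hw j hj T hT
  obtain ⟨hab, hbc, hc⟩ := f4_ord _ T hT
  have hpt : ∀ i, i < 6 → pt j i < N4 Γ + 1 := by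
    intro i hi
    unfold pt N4
    omega
  have hrb := (h6 Γ nw hw).2.1
  have key : ∀ x, x < N4 Γ + 2 → x ∉ [pt j T.1, pt j T.2.1, pt j T.2.2, N4 Γ + 1] →
      ch5 Γ nw ([pt j T.1, pt j T.2.1, pt j T.2.2, N4 Γ + 1] ++ [x]) =
        !tb4 (tj j) T.1 T.2.1 T.2.2 := by
    intro x hx hxm
    simp only [List.mem_cons, List.not_mem_nil, or_false, not_or] at hxm
    obtain ⟨xa, xb, xc, xn⟩ := hxm
    have hx' : x < N4 Γ + 1 := by omega
    have e5 := (h3 Γ nw (pt j T.1) (pt j T.2.1) (pt j T.2.2) (N4 Γ + 1) x).2.2.2.1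
      (hrb _ (hpt _ (by omega))) (hrb _ (hpt _ (by omega))) (hrb _ (hpt _ hc)) (hrb _ hx')
    have e6 : ch4 Γ nw [pt j T.1, pt j T.2.1, pt j T.2.2, x] = tb4 (tj j) T.1 T.2.1 T.2.2 := by
      by_cases hg : x = N4 Γ ∨ gr x ≠ j + 1
      · exact h4 Γ nw j T.1 T.2.1 T.2.2 x hj hab hbc hc (by omega) hg
      · have hg2 : gr x = j + 1 := by
          by_contra h
          exact hg (Or.inr h)
        have hx3 : 3 ≤ x := by
          by_contra h
          have := h1.2.2.2.2.2.1 x (by omega)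
          omega
        obtain ⟨q1, q2, q3⟩ := h1.2.1 x hx3
        have q4 : x = pt j (la x) := by
          have q5 : gr x - 1 = j := by omega
          rw [q5] at q1
          exact q1
        have na : la x ≠ T.1 := by
          intro h
          rw [h] at q4
          exact xa q4
        have nb : la x ≠ T.2.1 := by
          intro h
          rw [h] at q4
          exact xb q4
        have nc : la x ≠ T.2.2 := by
          intro h
          rw [h] at q4
          exact xc q4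
        have h7 := f4_val h2 h5 Γ nw j T.1 T.2.1 T.2.2 (la x) hj hab hbc hc q2 na nb nc
        rw [← q4] at h7
        rw [h7]
        exact f4_fin _ T hT _ q2 na nb nc
    rw [← e6]
    exact e5
  intro x y hx hy hxm hym
  rw [key x hx hxm, key y hy hym]

end Pool.Agent.Helper54.S4
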