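import Pool.Agent.Helper54.S4.Stmts

/-!
Realizability of simplicial 4-polytopes: module VC4.
-/

namespace Pool.Agent.Helper54.S4

open Finset Pool.Agent.Helper54.SP

theorem vc4_aex (N : ℕ) : aex N 2 0 = [N + 1] := by
  unfold aex apx
  simp [List.range_succ]

theorem vc4_mul {a b c : ℝ} (h1 : 0 < b * a) (h2 : 0 < b * c) : 0 < a * c := by
  have h3 : 0 < (b * a) * (b * c) := mul_pos h1 h2
  have hb : b ≠ 0 := by
    rintro rfl
    simp at h1
  have h4 : 0 < b * b := mul_self_pos.2 hb
  have h5 : (b * a) * (b * c) = (b * b) * (a * c) := by ring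
  rw [h5] at h3
  exact (mul_pos_iff_of_pos_left h4).1 h3

/-- the predecessor in the link of the vertical direction -/
theorem vc4_pred (Γ : List Gt) (p q : ℕ) (hp : 3 ≤ p) (h : VL Γ p q) :
    ∃ o, o < p ∧ VL Γ o p := by
  obtain ⟨h2, hq, h⟩ := h
  have hpN : p < N4 Γ := by
    rcases h with h | h | h | h <;> omega
  rcases h with ⟨h3, h4⟩ | ⟨_, h3, h4, h5⟩ | ⟨_, h3, h4, h5⟩ | ⟨_, h3, h4, h5⟩
  · unfold la at h3
    rcases Bool.eq_false_or_eq_true (ty p) with ht | ht
    · refine ⟨p - 1, by omega, by omega, hpN, Or.inr (Or.inr (Or.inr ⟨by omega, ?_, ?_, by omega⟩))⟩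
      · unfold la
        omega
      · rw [← ht]
        unfold ty gr
        have : (p - 1 + 3) / 6 = (p + 3) / 6 := by omega
        rw [this]
    · refine ⟨p - 5, by omega, by omega, hpN, Or.inr (Or.inl ⟨by omega, ?_, ?_, by omega⟩)⟩
      · unfold la
        omega
      · rw [← ht]
        unfold ty gr
        have : (p - 5 + 3) / 6 = (p + 3) / 6 := by omega
        rw [this]
  · unfold la at h3
    refine ⟨p - 1, by omega, by omega, hpN, Or.inl ⟨?_, by omega⟩⟩
    unfold la
    omega
  · unfold la at h3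
    refine ⟨p - 1, by omega, by omega, hpN, Or.inl ⟨?_, by omega⟩⟩
    unfold la
    omega
  · unfold la at h3
    refine ⟨p - 4, by omega, by omega, hpN, Or.inr (Or.inr (Or.inl ⟨by omega, ?_, ?_, by omega⟩))⟩
    · unfold la
      omega
    · rw [← h4]
      unfold ty gr
      have : (p - 4 + 3) / 6 = (p + 3) / 6 := by omega
      rw [this]

theorem st_VC4 (h1 : ST_AD4) (_ : ST_PT4) (_ : Pool.Agent.Helper54.SP.ST_BR)
    (h4 : Pool.Agent.Helper54.SP.ST_ADJ0) : ST_VC4 := by
  intro Γ nw X hΓ hF p
  have hN : 27 ≤ N4 Γ := by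
    unfold N4
    omega
  induction p using Nat.strong_induction_on with
  | _ p ih =>
    intro q hq
    rcases Nat.lt_or_ge p 3 with hp | hp
    · have h2 : p = 2 := by
        have := hq.1
        omega
      subst h2
      have h3 : q = 3 := by
        rcases hq.2.2 with h | h | h | h <;> omega
      subst h3
      have h5 := hF.vf 2 3 hq
      have h6 : br (N4 Γ) 2 X 0 2 3 ≠ 0 := by
        refine h4 (N4 Γ) 2 X 0 0 2 3 (by omega) (by omega) (by omega) (by omega) ?_
        rw [vc4_aex]
        exact h5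
      exact mul_self_pos.2 h6
    · obtain ⟨o, ho, hoV⟩ := vc4_pred Γ p q hp hq
      have h5 := ih o ho p hoV
      have hpq : p < q := by
        rcases hq.2.2 with h | h | h | h <;> omega
      have h2o := hoV.1
      have hqN := hq.2.1
      have h6 := h1 (N4 Γ) X 0 o p q [0, o, p, N4 Γ + 1] [0, p, q, N4 Γ + 1] (by
        simp only [List.nodup_cons, List.mem_cons, List.not_mem_nil, or_false, not_or,
          not_false_eq_true, List.nodup_nil, and_true]
        omega) (by omega) (by omega) (by omega) hqN (List.Perm.refl _) (List.Perm.refl _)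
        (hF.vf o p hoV) (hF.vf p q hq)
      exact vc4_mul h6 h5

end Pool.Agent.Helper54.S4
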